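import Mathlib
import Pool.Agent.H47.LocB

namespace Pool.Agent.Results.MP_9b03f8_al.Tangent
open Pool.Agent.H47

variable {𝕜 A : Type*} [RCLike 𝕜] [NormedAddCommGroup A] [NormedSpace 𝕜 A]

/-- local automorphisms of the algebra with product `μ` -/
def IsLocAut (μ : A →ₗ[𝕜] A →ₗ[𝕜] A) (φ : A →L[𝕜] A) : Prop :=
  ∀ x, ∃ g : A ≃ₗ[𝕜] A, (∀ u v, g (μ u v) = μ (g u) (g v)) ∧ φ x = g x

/-- local derivations of the algebra with product `μ` -/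
def IsLocDer (μ : A →ₗ[𝕜] A →ₗ[𝕜] A) (Δ : A →L[𝕜] A) : Prop :=
  ∀ x, ∃ D : A →ₗ[𝕜] A, (∀ u v, D (μ u v) = μ (D u) v + μ u (D v)) ∧ Δ x = D x

theorem result [FiniteDimensional 𝕜 A] (μ : A →ₗ[𝕜] A →ₗ[𝕜] A) (X : A →L[𝕜] A) :
    (∀ t : ℝ, IsLocAut μ (NormedSpace.exp ((t : 𝕜) • X))) ↔ IsLocDer μ X := by
  let := NormedSpace.restrictScalars ℝ 𝕜 A
  have : IsScalarTower ℝ 𝕜 A := IsScalarTower.restrictScalars ℝ 𝕜 A
  let m : A →L[𝕜] A →L[𝕜] A :=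
    LinearMap.toContinuousLinearMap (LinearMap.toContinuousLinearMap.toLinearMap ∘ₗ μ)
  refine ⟨fun h x => ?_, fun h t x => ?_⟩
  · obtain ⟨D, hD, e⟩ := LocB.sub (μ := m) (X := X) (fun t x => by
      obtain ⟨g, a, e⟩ := h t x
      exact ⟨g.toContinuousLinearEquiv, g.toContinuousLinearEquiv.symm,
        ⟨by ext; simp, by ext; simp, a⟩, e⟩) x
    exact ⟨D, hD, e.symm⟩
  · obtain ⟨g, k, a, e⟩ := LocA.sup (μ := m) (Δ := X) (fun x => by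
      obtain ⟨D, hD, e⟩ := h x
      exact ⟨LinearMap.toContinuousLinearMap D, hD, e.symm⟩) t x
    exact ⟨LinearEquiv.ofLinear g k (LinearMap.ext a.r) (LinearMap.ext a.l), a.2.2, e⟩

end Pool.Agent.Results.MP_9b03f8_al.Tangent
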